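import Pool.Agent.N359.Benz.Defs

/-!
A benzenoid system with 25 hexagons and 90 vertices, in the shape of a pinwheel, whose central hexagon
contains three edges of each of its perfect matchings.
-/

set_option autoImplicit false
set_option maxRecDepth 100000

namespace Pool.Agent.N359.Benz

/-- the first vertex of the cycle -/
def v0 : Site := (-4, -1, true)

/-- the other vertices of the cycle, and again the first one -/
def cyc : List Site :=
  [(-4, 0, false), (-4, 0, true), (-4, 1, false), (-4, 1, true), (-3, 1, false), (-3, 0, true),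
    (-2, 0, false), (-2, 0, true), (-2, 1, false), (-3, 1, true), (-3, 2, false), (-4, 2, true),
    (-4, 3, false), (-4, 3, true), (-3, 3, false), (-3, 3, true), (-2, 3, false), (-2, 2, true),
    (-2, 2, false), (-2, 1, true), (-1, 1, false), (-1, 1, true), (-1, 2, false), (-1, 2, true),
    (-1, 3, false), (-1, 3, true), (0, 3, false), (0, 2, true), (1, 2, false), (1, 1, true), (1,
    1, false), (0, 1, true), (0, 1, false), (0, 0, true), (1, 0, false), (1, 0, true), (2, 0,
    false), (2, 0, true), (3, 0, false), (3, -1, true), (3, -1, false), (3, -2, true), (3, -2,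
    false), (2, -2, true), (2, -1, false), (1, -1, true), (1, -1, false), (1, -2, true), (2, -2,
    false), (2, -3, true), (3, -3, false), (3, -4, true), (3, -4, false), (2, -4, true), (2, -4,
    false), (1, -4, true), (1, -3, false), (1, -3, true), (1, -2, false), (0, -2, true), (0, -2,
    false), (0, -3, true), (0, -3, false), (0, -4, true), (0, -4, false), (-1, -4, true), (-1,
    -3, false), (-2, -3, true), (-2, -2, false), (-2, -2, true), (-1, -2, false), (-1, -2,
    true), (-1, -1, false), (-2, -1, true), (-2, -1, false), (-3, -1, true), (-3, -1, false),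
    (-4, -1, true)]

/-- the hexagons inside the cycle -/
def hexs : List (ℤ × ℤ) :=
  [(-3, 0), (-3, 1), (-3, 3), (-2, 0), (-2, 2), (-2, 3), (-1, -2), (-1, 0), (-1, 1), (0, -3), (0,
    -2), (0, -1), (0, 0), (0, 1), (0, 2), (0, 3), (1, -1), (1, 0), (1, 2), (2, -3), (2, -2), (2,
    0), (3, -3), (3, -1), (3, 0)]

/-- the positions of the crossings -/
def crs : Finset (ℤ × ℤ) :=
  {(-4, 0), (-4, 1), (-4, 3), (-3, 1), (-3, 2), (-2, -2), (-2, 1), (-2, 2), (-2, 3), (-1, -3),
    (-1, -1), (-1, 2), (-1, 3), (0, -3), (0, -2), (0, 1), (0, 3), (1, -3), (1, -2), (1, -1), (1,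
    2), (2, -2), (2, -1), (3, -3), (3, -1), (3, 0)}

/-- the black vertices of the first part -/
def DB : Finset Site :=
  {(-4, 0, false), (-4, 1, false), (-3, -1, false), (-3, 0, false), (-3, 1, false), (-2, -1,
    false), (-2, 0, false), (-1, 2, false), (-1, 3, false), (0, 1, false), (0, 2, false), (0, 3,
    false), (1, -3, false), (1, -2, false), (1, 1, false), (1, 2, false), (2, -4, false), (2,
    -3, false), (2, -2, false), (3, -4, false), (3, -3, false)}

/-- the white vertices of the first part -/
def DW : Finset Site :=
  {(-4, -1, true), (-4, 0, true), (-4, 1, true), (-3, -1, true), (-3, 0, true), (-2, -1, true),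
    (-2, 0, true), (-1, 1, true), (-1, 2, true), (-1, 3, true), (0, -2, true), (0, 0, true), (0,
    1, true), (0, 2, true), (1, -4, true), (1, -3, true), (1, -2, true), (1, 1, true), (2, -4,
    true), (2, -3, true), (3, -4, true)}

/-- the black vertices of the second part -/
def UB : Finset Site :=
  {(-4, 3, false), (-3, 2, false), (-3, 3, false), (-2, -2, false), (-2, 1, false), (-2, 2,
    false), (-2, 3, false), (-1, -3, false), (-1, -2, false), (-1, -1, false), (-1, 1, false),
    (0, -4, false), (0, -3, false), (0, -2, false), (1, -1, false), (1, 0, false), (2, -1,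
    false), (2, 0, false), (3, -2, false), (3, -1, false), (3, 0, false)}

/-- the white vertices of the second part -/
def UW : Finset Site :=
  {(-4, 2, true), (-4, 3, true), (-3, 1, true), (-3, 2, true), (-3, 3, true), (-2, -3, true), (-2,
    -2, true), (-2, 1, true), (-2, 2, true), (-1, -4, true), (-1, -3, true), (-1, -2, true), (0,
    -4, true), (0, -3, true), (1, -1, true), (1, 0, true), (2, -2, true), (2, -1, true), (2, 0,
    true), (3, -2, true), (3, -1, true)}

/-- the pairs of a perfect matching -/
def prs : List (Site × Site) :=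
  [((-4, 0, false), (-4, -1, true)), ((-4, 1, false), (-4, 1, true)), ((-4, 3, false), (-4, 2,
    true)), ((-3, -1, false), (-3, -1, true)), ((-3, 0, false), (-4, 0, true)), ((-3, 1, false),
    (-3, 0, true)), ((-3, 2, false), (-3, 2, true)), ((-3, 3, false), (-4, 3, true)), ((-2, -2,
    false), (-2, -2, true)), ((-2, -1, false), (-2, -1, true)), ((-2, 0, false), (-2, 0, true)),
    ((-2, 1, false), (-3, 1, true)), ((-2, 2, false), (-2, 2, true)), ((-2, 3, false), (-3, 3,
    true)), ((-1, -3, false), (-2, -3, true)), ((-1, -2, false), (-1, -3, true)), ((-1, -1,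
    false), (-1, -2, true)), ((-1, 0, false), (-1, 0, true)), ((-1, 1, false), (-2, 1, true)),
    ((-1, 2, false), (-1, 1, true)), ((-1, 3, false), (-1, 2, true)), ((0, -4, false), (-1, -4,
    true)), ((0, -3, false), (0, -4, true)), ((0, -2, false), (0, -3, true)), ((0, -1, false),
    (-1, -1, true)), ((0, 0, false), (0, -1, true)), ((0, 1, false), (0, 0, true)), ((0, 2,
    false), (0, 1, true)), ((0, 3, false), (-1, 3, true)), ((1, -3, false), (1, -3, true)), ((1,
    -2, false), (0, -2, true)), ((1, -1, false), (1, -1, true)), ((1, 0, false), (1, 0, true)),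
    ((1, 1, false), (1, 1, true)), ((1, 2, false), (0, 2, true)), ((2, -4, false), (1, -4,
    true)), ((2, -3, false), (2, -4, true)), ((2, -2, false), (1, -2, true)), ((2, -1, false),
    (2, -2, true)), ((2, 0, false), (2, -1, true)), ((3, -4, false), (3, -4, true)), ((3, -3,
    false), (2, -3, true)), ((3, -2, false), (3, -2, true)), ((3, -1, false), (3, -1, true)),
    ((3, 0, false), (2, 0, true))]

end Pool.Agent.N359.Benz
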