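import Mathlib

set_option autoImplicit false

namespace Pool.Agent.N359.Benz

/-- The vertices of the regular hexagonal lattice. The hexagons are indexed by `ℤ × ℤ`, the points of
a triangular lattice; the six hexagons around the hexagon `(x, y)` are, in cyclic order, `(x + 1, y)`,
`(x, y + 1)`, `(x - 1, y + 1)`, `(x - 1, y)`, `(x, y - 1)`, `(x + 1, y - 1)`. The vertex
`(x, y, false)` is the common corner of the hexagons `(x, y)`, `(x + 1, y)`, `(x, y + 1)`, the vertex
`(x, y, true)` is the common corner of the hexagons `(x + 1, y)`, `(x, y + 1)`, `(x + 1, y + 1)`. -/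
abbrev Site : Type := ℤ × ℤ × Bool

/-- The regular hexagonal lattice graph: the neighbours of `(x, y, false)` are `(x, y, true)`,
`(x - 1, y, true)` and `(x, y - 1, true)`. -/
def honeycomb : SimpleGraph Site :=
  SimpleGraph.fromRel fun a b => a.2.2 = false ∧ b.2.2 = true ∧
    ((b.1 = a.1 ∧ b.2.1 = a.2.1) ∨ (b.1 = a.1 - 1 ∧ b.2.1 = a.2.1) ∨
      (b.1 = a.1 ∧ b.2.1 = a.2.1 - 1))

/-- The six corners of the hexagon `p`, in cyclic order. -/
def corner (p : ℤ × ℤ) : Fin 6 → Site :=
  ![(p.1, p.2, false), (p.1 - 1, p.2, true), (p.1 - 1, p.2, false), (p.1 - 1, p.2 - 1, true),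
    (p.1, p.2 - 1, false), (p.1, p.2 - 1, true)]

/-- The six edges of the hexagon `p`, in cyclic order. The edge `side p 5` is the one which `p` has
in common with the hexagon `(p.1 + 1, p.2)`. -/
def side (p : ℤ × ℤ) (i : Fin 6) : Sym2 Site := s(corner p i, corner p (i + 1))

/-- The hexagon `p` lies inside the cycle `C`: the straight ray which starts at the centre of `p` and
runs through the hexagons `p`, `(p.1 + 1, p.2)`, `(p.1 + 2, p.2)`, ... crosses an odd number of edges of
`C`. -/
def Inside {v : Site} (C : honeycomb.Walk v v) (p : ℤ × ℤ) : Prop :=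
  Odd (Set.ncard {k : ℕ | side (p.1 + k, p.2) 5 ∈ C.edges})

theorem adj_side (p : ℤ × ℤ) (i : Fin 6) : honeycomb.Adj (corner p i) (corner p (i + 1)) := by
  unfold honeycomb
  rw [SimpleGraph.fromRel_adj]
  fin_cases i <;> simp [corner]

/-- The benzenoid system of the cycle `C`: the cycle together with the corners and the edges of all
hexagons inside it. -/
def benzenoid {v : Site} (C : honeycomb.Walk v v) : honeycomb.Subgraph where
  verts := {a | a ∈ C.support ∨ ∃ p i, Inside C p ∧ a = corner p i}
  Adj a b := s(a, b) ∈ C.edges ∨ ∃ p i, Inside C p ∧ s(a, b) = side p i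
  adj_sub := by
    rintro a b (h | ⟨p, i, -, h⟩)
    · exact C.adj_of_mem_edges h
    · have h1 := adj_side p i
      unfold side at h
      rw [Sym2.eq_iff] at h
      rcases h with ⟨rfl, rfl⟩ | ⟨rfl, rfl⟩
      · exact h1
      · exact h1.symm
  edge_vert := by
    rintro a b (h | ⟨p, i, hp, h⟩)
    · exact Or.inl (C.fst_mem_support_of_mem_edges h)
    · unfold side at h
      rw [Sym2.eq_iff] at h
      rcases h with ⟨rfl, rfl⟩ | ⟨rfl, rfl⟩
      · exact Or.inr ⟨p, i, hp, rfl⟩
      · exact Or.inr ⟨p, i + 1, hp, rfl⟩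
  symm := ⟨by
    intro a b h
    rw [Sym2.eq_swap]
    exact h⟩

/-- A Kekulé structure of the benzenoid system: a perfect matching of it. -/
def IsKekule {v : Site} (C : honeycomb.Walk v v) (M : honeycomb.Subgraph) : Prop :=
  M ≤ benzenoid C ∧ M.verts = (benzenoid C).verts ∧ M.IsMatching

/-- The Pauling bond order of the edge `e`: the fraction of the Kekulé structures which contain `e`. -/
noncomputable def bondOrder {v : Site} (C : honeycomb.Walk v v) (e : Sym2 Site) : ℚ :=
  (Nat.card {M : honeycomb.Subgraph // IsKekule C M ∧ e ∈ M.edgeSet} : ℚ) /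
    (Nat.card {M : honeycomb.Subgraph // IsKekule C M} : ℚ)

/-- The ring bond order of the hexagon `p`: the sum of the bond orders of its six edges. -/
noncomputable def ringBondOrder {v : Site} (C : honeycomb.Walk v v) (p : ℤ × ℤ) : ℚ :=
  ∑ i : Fin 6, bondOrder C (side p i)

end Pool.Agent.N359.Benz
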