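import Pool.Agent.N359.Benz.Data

set_option autoImplicit false
set_option maxRecDepth 100000

namespace Pool.Agent.N359.Benz

open SimpleGraph

theorem edges_ofSupport {V : Type} {G : SimpleGraph V} :
    ∀ (l : List V) (hne : l ≠ []) (h : l.IsChain G.Adj),
      (Walk.ofSupport l hne h).edges = List.zipWith (fun a b => s(a, b)) l l.tail
  | [_], _, _ => rfl
  | u :: v :: l, _, h => by
    have ih := edges_ofSupport (v :: l) (l.cons_ne_nil v) h.of_cons
    show s(u, v) :: (Walk.ofSupport (v :: l) (l.cons_ne_nil v) h.of_cons).edges =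
      s(u, v) :: List.zipWith (fun a b => s(a, b)) (v :: l) l
    rw [ih]
    rfl

instance : DecidableRel honeycomb.Adj := fun a b =>
  decidable_of_iff _ (SimpleGraph.fromRel_adj _ a b).symm

theorem cyc_ne : cyc ≠ [] := by decide

theorem cyc_chain : cyc.IsChain honeycomb.Adj := by decide +kernel

theorem cyc_last : cyc.getLast cyc_ne = v0 := by decide +kernel

theorem adj0 : honeycomb.Adj v0 (cyc.head cyc_ne) := by decide +kernel

/-- the cycle -/
def CC : honeycomb.Walk v0 v0 :=
  Walk.cons adj0 ((Walk.ofSupport cyc cyc_ne cyc_chain).copy rfl cyc_last)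

theorem CC_support : CC.support = v0 :: cyc := by
  simp [CC, Walk.support_ofSupport]

/-- the edges of the cycle -/
def elist : List (Sym2 Site) := List.zipWith (fun a b => s(a, b)) (v0 :: cyc) cyc

theorem CC_edges : CC.edges = elist := by
  simp only [CC, Walk.edges_cons, Walk.edges_copy, edges_ofSupport]
  rfl

theorem cyc_nodup : cyc.Nodup := by decide +kernel

theorem CC_isCycle : CC.IsCycle := by
  unfold CC
  rw [Walk.cons_isCycle_iff]
  constructor
  · rw [Walk.isPath_def, Walk.support_copy, Walk.support_ofSupport]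
    exact cyc_nodup
  · rw [Walk.edges_copy, edges_ofSupport]
    decide +kernel

/-! ### the hexagons inside -/

theorem side5 (x y : ℤ) : side (x, y) 5 = s((x, y - 1, true), (x, y, false)) := rfl

/-- the positions of the black vertices on the cycle -/
def bpos : List (ℤ × ℤ) := ((v0 :: cyc).filter (fun a => !a.2.2)).map (fun a => (a.1, a.2.1))

theorem crs_check : ∀ q ∈ bpos, (side q 5 ∈ elist ↔ q ∈ crs) := by decide +kernel

theorem crs_sub : ∀ q ∈ crs, q ∈ bpos := by decide +kernel

theorem cross_iff (q : ℤ × ℤ) : side q 5 ∈ CC.edges ↔ q ∈ crs := by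
  rw [CC_edges]
  constructor
  · intro h
    have h1 : side q 5 ∈ CC.edges := by rw [CC_edges]; exact h
    have h2 : (q.1, q.2, false) ∈ CC.support := by
      refine CC.snd_mem_support_of_mem_edges (t := (q.1, q.2 - 1, true)) ?_
      exact h1
    rw [CC_support] at h2
    have h3 : q ∈ bpos := by
      unfold bpos
      rw [List.mem_map]
      exact ⟨(q.1, q.2, false), List.mem_filter.2 ⟨h2, rfl⟩, rfl⟩
    exact (crs_check q h3).1 h
  · intro h
    exact (crs_check q (crs_sub q h)).2 h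

theorem ncard_eq (p : ℤ × ℤ) : Set.ncard {k : ℕ | side (p.1 + k, p.2) 5 ∈ CC.edges} =
    (crs.filter (fun q => q.2 = p.2 ∧ p.1 ≤ q.1)).card := by
  have h1 : {k : ℕ | side (p.1 + k, p.2) 5 ∈ CC.edges} = {k : ℕ | (p.1 + k, p.2) ∈ crs} := by
    ext k; exact cross_iff _
  rw [h1, ← Set.ncard_coe_finset]
  refine Set.ncard_congr (fun k _ => (p.1 + (k : ℤ), p.2)) ?_ ?_ ?_
  · intro k hk
    rw [Finset.mem_coe, Finset.mem_filter]
    refine ⟨hk, rfl, ?_⟩
    show p.1 ≤ p.1 + (k : ℤ)
    omega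
  · intro a b _ _ hab
    have := congrArg Prod.fst hab
    simp only at this
    omega
  · intro q hq
    rw [Finset.mem_coe, Finset.mem_filter] at hq
    obtain ⟨hq1, hq2, hq3⟩ := hq
    have e : (p.1 + ((q.1 - p.1).toNat : ℤ), p.2) = q := by
      refine Prod.ext ?_ hq2.symm
      show p.1 + ((q.1 - p.1).toNat : ℤ) = q.1
      omega
    refine ⟨(q.1 - p.1).toNat, ?_, e⟩
    show (p.1 + ((q.1 - p.1).toNat : ℤ), p.2) ∈ crs
    rw [e]; exact hq1

theorem crs_bounds : ∀ q ∈ crs, -5 ≤ q.1 ∧ q.1 ≤ 5 ∧ -5 ≤ q.2 ∧ q.2 ≤ 5 := by decide +kernel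

theorem hexs_bounds : ∀ q ∈ hexs, -5 ≤ q.1 ∧ q.1 ≤ 5 ∧ -5 ≤ q.2 ∧ q.2 ≤ 5 := by decide +kernel

theorem box_check : ∀ x ∈ Finset.Icc (-5 : ℤ) 5, ∀ y ∈ Finset.Icc (-5 : ℤ) 5,
    (Odd (crs.filter (fun q => q.2 = y ∧ x ≤ q.1)).card ↔ (x, y) ∈ hexs) := by decide +kernel

theorem row_check : ∀ y ∈ Finset.Icc (-5 : ℤ) 5,
    ¬ Odd (crs.filter (fun q => q.2 = y ∧ -5 ≤ q.1)).card := by decide +kernel

theorem inside_iff (p : ℤ × ℤ) : Inside CC p ↔ p ∈ hexs := by
  unfold Inside
  rw [ncard_eq]
  obtain ⟨x, y⟩ := p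
  simp only
  by_cases hy : y ∈ Finset.Icc (-5 : ℤ) 5
  · by_cases hx : x ∈ Finset.Icc (-5 : ℤ) 5
    · exact box_check x hx y hy
    · rw [Finset.mem_Icc, not_and_or, not_le, not_le] at hx
      have hn : (x, y) ∉ hexs := by
        intro h
        have := hexs_bounds _ h
        simp only at this
        omega
      rcases hx with hx | hx
      · have e : crs.filter (fun q => q.2 = y ∧ x ≤ q.1) =
            crs.filter (fun q => q.2 = y ∧ -5 ≤ q.1) := by
          apply Finset.filter_congr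
          intro q hq
          have := crs_bounds q hq
          constructor
          · rintro ⟨h1, h2⟩; exact ⟨h1, by omega⟩
          · rintro ⟨h1, h2⟩; exact ⟨h1, by omega⟩
        rw [e]
        exact iff_of_false (row_check y hy) hn
      · have e : crs.filter (fun q => q.2 = y ∧ x ≤ q.1) = ∅ := by
          rw [Finset.filter_eq_empty_iff]
          rintro q hq ⟨h1, h2⟩
          have := crs_bounds q hq
          omega
        rw [e]
        exact iff_of_false (by decide) hn
  · have hn : (x, y) ∉ hexs := by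
      intro h
      have := hexs_bounds _ h
      simp only at this
      rw [Finset.mem_Icc] at hy
      omega
    have e : crs.filter (fun q => q.2 = y ∧ x ≤ q.1) = ∅ := by
      rw [Finset.filter_eq_empty_iff]
      rintro q hq ⟨h1, h2⟩
      have := crs_bounds q hq
      rw [Finset.mem_Icc] at hy
      omega
    rw [e]
    exact iff_of_false (by decide) hn

/-! ### the vertices and the edges -/

/-- the edges of the benzenoid system -/
def blist : List (Sym2 Site) := hexs.flatMap fun p => (List.finRange 6).map fun i => side p i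

/-- the vertices of the benzenoid system -/
def vlist : List Site := hexs.flatMap fun p => (List.finRange 6).map fun i => corner p i

theorem elist_sub : ∀ e ∈ elist, e ∈ blist := by decide +kernel

theorem cyc_sub : ∀ e ∈ v0 :: cyc, e ∈ vlist := by decide +kernel

theorem mem_verts (a : Site) : a ∈ (benzenoid CC).verts ↔ a ∈ vlist := by
  show (a ∈ CC.support ∨ ∃ p i, Inside CC p ∧ a = corner p i) ↔ _
  rw [CC_support]
  constructor
  · rintro (h | ⟨p, i, hp, rfl⟩)
    · exact cyc_sub a h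
    · rw [inside_iff] at hp
      exact List.mem_flatMap.2 ⟨p, hp, List.mem_map.2 ⟨i, List.mem_finRange i, rfl⟩⟩
  · intro h
    obtain ⟨p, hp, h2⟩ := List.mem_flatMap.1 h
    obtain ⟨i, -, rfl⟩ := List.mem_map.1 h2
    exact Or.inr ⟨p, i, (inside_iff p).2 hp, rfl⟩

theorem adj_iff (a b : Site) : (benzenoid CC).Adj a b ↔ s(a, b) ∈ blist := by
  show (s(a, b) ∈ CC.edges ∨ ∃ p i, Inside CC p ∧ s(a, b) = side p i) ↔ _
  rw [CC_edges]
  constructor
  · rintro (h | ⟨p, i, hp, h⟩)
    · exact elist_sub _ h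
    · rw [inside_iff] at hp
      rw [h]
      exact List.mem_flatMap.2 ⟨p, hp, List.mem_map.2 ⟨i, List.mem_finRange i, rfl⟩⟩
  · intro h
    obtain ⟨p, hp, h2⟩ := List.mem_flatMap.1 h
    obtain ⟨i, -, h3⟩ := List.mem_map.1 h2
    exact Or.inr ⟨p, i, (inside_iff p).2 hp, h3.symm⟩

/-! ### a perfect matching -/

/-- the partner of a vertex -/
def pt (a : Site) : Site :=
  match prs.find? (fun q => decide (q.1 = a ∨ q.2 = a)) with
  | some q => if q.1 = a then q.2 else q.1
  | none => a

theorem prs_check : ∀ q ∈ prs, s(q.1, q.2) ∈ blist ∧ pt q.1 = q.2 ∧ pt q.2 = q.1 := by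
  decide +kernel

theorem vlist_check : ∀ a ∈ vlist, (a, pt a) ∈ prs ∨ (pt a, a) ∈ prs := by decide +kernel

theorem prs_mem : ∀ q ∈ prs, q.1 ∈ vlist ∧ q.2 ∈ vlist := by decide +kernel

/-- the perfect matching -/
def M0 : honeycomb.Subgraph where
  verts := (benzenoid CC).verts
  Adj a b := (a, b) ∈ prs ∨ (b, a) ∈ prs
  adj_sub := by
    rintro a b (h | h)
    · exact ((adj_iff a b).2 (prs_check _ h).1).adj_sub
    · exact ((adj_iff b a).2 (prs_check _ h).1).adj_sub.symm
  edge_vert := by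
    rintro a b (h | h)
    · exact (mem_verts a).2 (prs_mem _ h).1
    · exact (mem_verts a).2 (prs_mem _ h).2
  symm := ⟨fun _ _ h => h.symm⟩

theorem M0_kekule : IsKekule CC M0 := by
  refine ⟨⟨le_rfl, ?_⟩, rfl, ?_⟩
  · rintro a b (h | h)
    · exact (adj_iff a b).2 (prs_check _ h).1
    · exact ((adj_iff b a).2 (prs_check _ h).1).symm
  · intro a ha
    have h1 := vlist_check a ((mem_verts a).1 ha)
    refine ⟨pt a, h1, ?_⟩
    rintro b (h | h)
    · exact (prs_check _ h).2.1.symm
    · exact (prs_check _ h).2.2.symm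

/-! ### the two closed parts -/

theorem DB_check : ∀ a ∈ DB, ∀ e ∈ blist, a ∈ e → ∃ b ∈ DW, e = s(a, b) := by decide +kernel

theorem UW_check : ∀ a ∈ UW, ∀ e ∈ blist, a ∈ e → ∃ b ∈ UB, e = s(a, b) := by decide +kernel

theorem DB_sub : ∀ a ∈ DB, a ∈ vlist := by decide +kernel

theorem UW_sub : ∀ a ∈ UW, a ∈ vlist := by decide +kernel

/-- In a matching, a set of vertices all of whose neighbours lie in a set of the same size is matched
onto this set. -/
theorem closed_part {M : honeycomb.Subgraph} (hM : M.IsMatching) (A B : Finset Site)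
    (hcard : A.card = B.card) (hA : ∀ a ∈ A, a ∈ M.verts) (h : ∀ a ∈ A, ∀ b, M.Adj a b → b ∈ B) :
    ∀ b ∈ B, ∃ a ∈ A, M.Adj a b := by
  classical
  choose f hf hf' using fun a : A => hM (hA a.1 a.2)
  have hfB : ∀ a : A, f a ∈ B := fun a => h a.1 a.2 _ (hf a)
  have hinj : Function.Injective (fun a : A => (⟨f a, hfB a⟩ : B)) := by
    intro a a' haa
    have e : f a = f a' := congrArg Subtype.val haa
    obtain ⟨w, -, hw⟩ := hM (M.edge_vert (hf a).symm)
    have e1 := hw a.1 (hf a).symm
    have e2 := hw a'.1 (by rw [e]; exact (hf a').symm)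
    exact Subtype.ext (e1.trans e2.symm)
  have hsurj : Function.Surjective (fun a : A => (⟨f a, hfB a⟩ : B)) := by
    have := (Fintype.bijective_iff_injective_and_card (fun a : A => (⟨f a, hfB a⟩ : B))).2
      ⟨hinj, by rw [Fintype.card_coe, Fintype.card_coe, hcard]⟩
    exact this.2
  intro b hb
  obtain ⟨a, ha⟩ := hsurj ⟨b, hb⟩
  refine ⟨a.1, a.2, ?_⟩
  have e : f a = b := congrArg Subtype.val ha
  rw [← e]
  exact hf a

theorem DW_matched {M : honeycomb.Subgraph} (hM : IsKekule CC M) :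
    ∀ b ∈ DW, ∃ a ∈ DB, M.Adj a b := by
  obtain ⟨h1, h2, h3⟩ := hM
  refine closed_part h3 DB DW (by decide +kernel) ?_ ?_
  · intro a ha
    rw [h2]; exact (mem_verts a).2 (DB_sub a ha)
  · intro a ha b hab
    obtain ⟨c, hc, e⟩ := DB_check a ha _ ((adj_iff a b).1 (h1.2 hab)) (Sym2.mem_mk_left a b)
    rw [Sym2.congr_right] at e
    rw [e]; exact hc

theorem UB_matched {M : honeycomb.Subgraph} (hM : IsKekule CC M) :
    ∀ b ∈ UB, ∃ a ∈ UW, M.Adj a b := by
  obtain ⟨h1, h2, h3⟩ := hM
  refine closed_part h3 UW UB (by decide +kernel) ?_ ?_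
  · intro a ha
    rw [h2]; exact (mem_verts a).2 (UW_sub a ha)
  · intro a ha b hab
    obtain ⟨c, hc, e⟩ := UW_check a ha _ ((adj_iff a b).1 (h1.2 hab)) (Sym2.mem_mk_left a b)
    rw [Sym2.congr_right] at e
    rw [e]; exact hc

/-- the black corners of the central hexagon -/
theorem center_check : ∀ i : Fin 6, i = 0 ∨ i = 2 ∨ i = 4 → ∀ e ∈ blist, corner (0, 0) i ∈ e →
    (∃ b ∈ DW, e = s(corner (0, 0) i, b)) ∨ e = side (0, 0) i ∨ e = side (0, 0) (i - 1) := by
  decide +kernel

theorem center_sub : ∀ i : Fin 6, corner (0, 0) i ∈ vlist ∧ corner (0, 0) i ∉ DB := by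
  decide +kernel

theorem side_eq (i : Fin 6) : side (0, 0) i = s(corner (0, 0) i, corner (0, 0) (i + 1)) := rfl

theorem side_pred (i : Fin 6) : side (0, 0) (i - 1) = s(corner (0, 0) i, corner (0, 0) (i - 1)) := by
  rw [side_eq, sub_add_cancel, Sym2.eq_swap]

theorem corner_ne : ∀ i : Fin 6, corner (0, 0) (i + 1) ≠ corner (0, 0) (i - 1) := by
  decide +kernel

/-- exactly one of the two sides at a black corner of the central hexagon is in the matching -/
theorem one_side {M : honeycomb.Subgraph} (hM : IsKekule CC M) (i : Fin 6)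
    (hi : i = 0 ∨ i = 2 ∨ i = 4) :
    (side (0, 0) i ∈ M.edgeSet ∧ side (0, 0) (i - 1) ∉ M.edgeSet) ∨
      (side (0, 0) i ∉ M.edgeSet ∧ side (0, 0) (i - 1) ∈ M.edgeSet) := by
  have hv : corner (0, 0) i ∈ M.verts := by
    rw [hM.2.1]; exact (mem_verts _).2 (center_sub i).1
  obtain ⟨w, hw, huniq⟩ := hM.2.2 hv
  have he : s(corner (0, 0) i, w) ∈ blist := (adj_iff _ _).1 (hM.1.2 hw)
  rcases center_check i hi _ he (Sym2.mem_mk_left _ _) with ⟨b, hb, e⟩ | e | e
  · exfalso
    rw [Sym2.congr_right] at e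
    subst e
    obtain ⟨a, ha, hab⟩ := DW_matched hM w hb
    obtain ⟨u, -, hu⟩ := hM.2.2 (M.edge_vert hw.symm)
    have e1 := hu _ hw.symm
    have e2 := hu _ hab.symm
    have e3 : corner (0, 0) i = a := e1.trans e2.symm
    exact (center_sub i).2 (e3 ▸ ha)
  · left
    constructor
    · rw [← e]; exact hw
    · intro h
      rw [side_pred] at h
      have h' : M.Adj (corner (0, 0) i) (corner (0, 0) (i - 1)) := h
      rw [side_eq, Sym2.congr_right] at e
      exact corner_ne i (by rw [← e]; exact (huniq _ h').symm)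
  · right
    constructor
    · intro h
      rw [side_eq] at h
      have h' : M.Adj (corner (0, 0) i) (corner (0, 0) (i + 1)) := h
      rw [side_pred, Sym2.congr_right] at e
      exact corner_ne i (by rw [← e]; exact huniq _ h')
    · rw [← e]; exact hw

open Classical in
theorem sum_sides {M : honeycomb.Subgraph} (hM : IsKekule CC M) :
    ∑ i : Fin 6, (if side (0, 0) i ∈ M.edgeSet then 1 else 0) = 3 := by
  have h0 := one_side hM 0 (Or.inl rfl)
  have h2 := one_side hM 2 (Or.inr (Or.inl rfl))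
  have h4 := one_side hM 4 (Or.inr (Or.inr rfl))
  rw [show (0 : Fin 6) - 1 = 5 from rfl] at h0
  rw [show (2 : Fin 6) - 1 = 1 from rfl] at h2
  rw [show (4 : Fin 6) - 1 = 3 from rfl] at h4
  rw [Fin.sum_univ_six]
  rcases h0 with ⟨a0, a5⟩ | ⟨a0, a5⟩ <;> rcases h2 with ⟨a2, a1⟩ | ⟨a2, a1⟩ <;>
    rcases h4 with ⟨a4, a3⟩ | ⟨a4, a3⟩ <;>
    simp only [a0, a1, a2, a3, a4, a5, if_true, if_false]

theorem ncard_sides {M : honeycomb.Subgraph} (hM : IsKekule CC M) :
    {i : Fin 6 | side (0, 0) i ∈ M.edgeSet}.ncard = 3 := by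
  classical
  have h := sum_sides hM
  rw [Finset.sum_boole] at h
  rw [Set.ncard_eq_toFinset_card', Set.toFinset_setOf]
  exact_mod_cast h

/-! ### the number of Kekulé structures is finite -/

theorem finite_kekule : Finite {M : honeycomb.Subgraph // IsKekule CC M} := by
  have hfin : Finite {e : Sym2 Site // e ∈ blist} := (List.finite_toSet blist).to_subtype
  refine Finite.of_injective (β := Set {e : Sym2 Site // e ∈ blist})
    (fun M => {e | e.1 ∈ M.1.edgeSet}) ?_
  rintro ⟨M, hM⟩ ⟨N, hN⟩ h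
  apply Subtype.ext
  have key : ∀ a b, M.Adj a b ↔ N.Adj a b := by
    intro a b
    constructor
    · intro hab
      have h1 : s(a, b) ∈ blist := (adj_iff a b).1 (hM.1.2 hab)
      have h2 : (⟨s(a, b), h1⟩ : {e : Sym2 Site // e ∈ blist}) ∈
          {e : {e : Sym2 Site // e ∈ blist} | e.1 ∈ M.edgeSet} := hab
      have h3 : {e : {e : Sym2 Site // e ∈ blist} | e.1 ∈ M.edgeSet} =
        {e : {e : Sym2 Site // e ∈ blist} | e.1 ∈ N.edgeSet} := h
      rw [h3] at h2
      exact h2
    · intro hab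
      have h1 : s(a, b) ∈ blist := (adj_iff a b).1 (hN.1.2 hab)
      have h2 : (⟨s(a, b), h1⟩ : {e : Sym2 Site // e ∈ blist}) ∈
          {e : {e : Sym2 Site // e ∈ blist} | e.1 ∈ N.edgeSet} := hab
      have h3 : {e : {e : Sym2 Site // e ∈ blist} | e.1 ∈ M.edgeSet} =
        {e : {e : Sym2 Site // e ∈ blist} | e.1 ∈ N.edgeSet} := h
      rw [← h3] at h2
      exact h2
  refine SimpleGraph.Subgraph.ext ?_ ?_
  · rw [hM.2.1, hN.2.1]
  · funext a b
    exact propext (key a b)

theorem rbo : ringBondOrder CC (0, 0) = 3 := by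
  classical
  have := finite_kekule
  have := Fintype.ofFinite {M : honeycomb.Subgraph // IsKekule CC M}
  have hpos : 0 < Nat.card {M : honeycomb.Subgraph // IsKekule CC M} := by
    have : Nonempty {M : honeycomb.Subgraph // IsKekule CC M} := ⟨⟨M0, M0_kekule⟩⟩
    exact Nat.card_pos
  have hcard : ∀ e : Sym2 Site,
      Nat.card {M : honeycomb.Subgraph // IsKekule CC M ∧ e ∈ M.edgeSet} =
      ∑ M : {M : honeycomb.Subgraph // IsKekule CC M}, (if e ∈ M.1.edgeSet then 1 else 0) := by
    intro e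
    rw [Finset.sum_boole, Nat.cast_id]
    have e1 : {M : honeycomb.Subgraph // IsKekule CC M ∧ e ∈ M.edgeSet} ≃
        {M : {M : honeycomb.Subgraph // IsKekule CC M} // e ∈ M.1.edgeSet} :=
      (Equiv.subtypeSubtypeEquivSubtypeInter (fun M : honeycomb.Subgraph => IsKekule CC M)
        (fun M => e ∈ M.edgeSet)).symm
    rw [Nat.card_congr e1, Nat.card_eq_fintype_card, Fintype.card_subtype]
  have htot : ∑ i : Fin 6, Nat.card {M : honeycomb.Subgraph // IsKekule CC M ∧
      side (0, 0) i ∈ M.edgeSet} = 3 * Nat.card {M : honeycomb.Subgraph // IsKekule CC M} := by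
    simp only [hcard]
    rw [Finset.sum_comm, Finset.sum_congr rfl (fun M _ => sum_sides M.2), Finset.sum_const,
      Finset.card_univ, Nat.card_eq_fintype_card, smul_eq_mul, mul_comm]
  unfold ringBondOrder bondOrder
  rw [← Finset.sum_div, div_eq_iff (by exact_mod_cast hpos.ne')]
  exact_mod_cast htot

theorem inside_set : {p | Inside CC p} = (hexs.toFinset : Set (ℤ × ℤ)) := by
  ext p
  rw [Set.mem_setOf_eq, inside_iff, Finset.mem_coe, List.mem_toFinset]

theorem inside_ncard : {p | Inside CC p}.ncard = 25 := by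
  rw [inside_set, Set.ncard_coe_finset]
  decide +kernel

end Pool.Agent.N359.Benz
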